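import Pool.Agent.W467.FO.D

/-!
# The main theorem on lifts of linear automorphisms (helper467)
-/

set_option autoImplicit false
set_option maxHeartbeats 400000

open MvPolynomial H960VB H938TB Pool.Agent.W615

namespace Pool.Agent.W467.FO

variable {n : ℕ} {E : Bundle2 n} {T : (Fin (n + 1) → ℂ) →ₗ[ℂ] (Fin (n + 1) → ℂ)}

/-- parametrisation of an eigenspace -/
theorem exists_S (l : ℂ) (h : 3 ≤ Module.finrank ℂ (LinearMap.ker (T - l • LinearMap.id))) :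
    ∃ (m : ℕ) (S : (Fin (m + 1) → ℂ) →ₗ[ℂ] (Fin (n + 1) → ℂ)), 2 ≤ m ∧ m ≤ n ∧
      Function.Injective S ∧ T ∘ₗ S = l • S ∧ ∀ P, T P = l • P → ∃ y, S y = P := by
  set K := LinearMap.ker (T - l • LinearMap.id) with hK
  have hle : Module.finrank ℂ K ≤ n + 1 := by
    have := Submodule.finrank_le K
    rwa [Module.finrank_fintype_fun_eq_card, Fintype.card_fin] at this
  obtain ⟨m, hm⟩ : ∃ m, Module.finrank ℂ K = m + 1 := ⟨Module.finrank ℂ K - 1, by omega⟩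
  have e : (Fin (m + 1) → ℂ) ≃ₗ[ℂ] K := LinearEquiv.ofFinrankEq _ _ (by
    rw [Module.finrank_fintype_fun_eq_card, Fintype.card_fin, hm])
  refine ⟨m, K.subtype ∘ₗ e.toLinearMap, by omega, by omega, ?_, ?_, ?_⟩
  · exact (Subtype.val_injective).comp e.injective
  · apply LinearMap.ext
    intro x
    have h1 : (e x : Fin (n + 1) → ℂ) ∈ LinearMap.ker (T - l • LinearMap.id) := (e x).2
    rw [LinearMap.mem_ker, LinearMap.sub_apply, LinearMap.smul_apply, LinearMap.id_apply,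
      sub_eq_zero] at h1
    exact h1
  · intro P hP
    have h1 : P ∈ K := by
      rw [hK, LinearMap.mem_ker, LinearMap.sub_apply, LinearMap.smul_apply, LinearMap.id_apply,
        hP, sub_self]
    exact ⟨e.symm ⟨P, h1⟩, by simp⟩

/-- the relation between the types and the degrees -/
theorem rel_of {κ τ l₁ l₂ : ℂ} (hκ : κ ≠ 0) (h1 : l₁ ≠ 0) (h2 : l₂ ≠ 0) {p q : ℤ}
    (e1 : (τ * l₁ ^ q) * (τ * l₁ ^ q) = κ * l₁ ^ (p + q))
    (e2 : (τ * l₂ ^ q) * (τ * l₂ ^ q) = κ * l₂ ^ (p + q)) : (l₁ / l₂) ^ (p - q) = 1 := by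
  have key : ∀ l : ℂ, l ≠ 0 → (τ * l ^ q) * (τ * l ^ q) = κ * l ^ (p + q) →
      τ * τ = κ * l ^ (p - q) := by
    intro l hl h
    have h3 : l ^ q * l ^ q ≠ 0 := mul_ne_zero (zpow_ne_zero _ hl) (zpow_ne_zero _ hl)
    apply mul_right_cancel₀ h3
    have h4 : l ^ (p - q) * (l ^ q * l ^ q) = l ^ (p + q) := by
      rw [← zpow_add₀ hl, ← zpow_add₀ hl]
      congr 1
      ring
    rw [mul_assoc κ, h4]
    linear_combination h
  have k1 := key l₁ h1 e1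
  have k2 := key l₂ h2 e2
  rw [k1] at k2
  have k3 := mul_left_cancel₀ hκ k2
  rw [div_zpow, k3, div_self (zpow_ne_zero _ h2)]

theorem main (O : GOp E T) (hT : Function.Injective T) {l₁ l₂ : ℂ}
    (h₁ : 3 ≤ Module.finrank ℂ (LinearMap.ker (T - l₁ • LinearMap.id)))
    (h₂ : 3 ≤ Module.finrank ℂ (LinearMap.ker (T - l₂ • LinearMap.id)))
    {P Q : Fin (n + 1) → ℂ} (hP0 : P ≠ 0) (hQ0 : Q ≠ 0) (hP : T P = l₁ • P) (hQ : T Q = l₂ • Q)
    {p q : ℤ} (hs : E.SplitsOn P Q p q) (hne : (l₁ / l₂) ^ (p - q) ≠ 1) : E.Splits := by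
  by_contra hE
  have hl₁ : l₁ ≠ 0 := by
    rintro rfl
    rw [zero_smul] at hP
    exact hP0 (hT (by rw [hP, map_zero]))
  have hl₂ : l₂ ≠ 0 := by
    rintro rfl
    rw [zero_smul] at hQ
    exact hQ0 (hT (by rw [hQ, map_zero]))
  have hl : l₁ ≠ l₂ := by
    rintro rfl
    rw [div_self hl₁, one_zpow] at hne
    exact hne rfl
  have hPQ : LinearIndependent ℂ ![P, Q] := by
    rw [LinearIndependent.pair_iff]
    intro a b hab
    have h1 := congrArg T hab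
    rw [map_add, map_smul, map_smul, hP, hQ, map_zero] at h1
    have h2 : (a * (l₁ - l₂)) • P = 0 := by
      have h3 : (a * (l₁ - l₂)) • P = (a • l₁ • P + b • l₂ • Q) - l₂ • (a • P + b • Q) := by
        module
      rw [h3, h1, hab, smul_zero, sub_zero]
    have h4 : a * (l₁ - l₂) = 0 := (smul_eq_zero.1 h2).resolve_right hP0
    have h5 : a = 0 := (mul_eq_zero.1 h4).resolve_right (sub_ne_zero.2 hl)
    rw [h5, zero_smul, zero_add] at hab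
    exact ⟨h5, (smul_eq_zero.1 hab).resolve_right hQ0⟩
  obtain ⟨m₁, S₁, hm₁, hn₁, hS₁, hTS₁, hr₁⟩ := exists_S l₁ h₁
  obtain ⟨m₂, S₂, hm₂, hn₂, hS₂, hTS₂, hr₂⟩ := exists_S l₂ h₂
  have hn : 1 ≤ n := by omega
  obtain ⟨W⟩ := exists_wedge hn (triv E)
  obtain ⟨κ, hκ0, hκ⟩ := O.det W hn hT
  have hE₁ : ¬ (E.pull S₁ hS₁).Splits := fun h =>
    hE (Bundle2.splits_of_pull (n - m₁) m₁ n hm₁ (by omega) E S₁ hS₁ h)
  have hE₂ : ¬ (E.pull S₂ hS₂).Splits := fun h =>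
    hE (Bundle2.splits_of_pull (n - m₂) m₂ n hm₂ (by omega) E S₂ hS₂ h)
  obtain ⟨u₁, hu₁, hu₁'⟩ := O.typeV W hκ0 hκ (by omega) S₁ hS₁ hl₁ hTS₁ hE₁
  obtain ⟨u₂, hu₂, hu₂'⟩ := O.typeV W hκ0 hκ (by omega) S₂ hS₂ hl₂ hTS₂ hE₂
  have v₁ : ∀ (d : ℤ) (α : ℂ) (s : S0 E d), O.GE d α s → evv (s : Vec E.a n) P ≠ 0 →
      α = u₁ * l₁ ^ d := by
    intro d α s hs hv
    refine hu₁' d α s hs ?_
    obtain ⟨y, hy⟩ := hr₁ P hP
    by_contra hc
    push Not at hc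
    apply hv
    funext i
    have h1 : eval P (s.1 i) = 0 := by
      rw [← hy, ← eval_lsub]
      have h2 : lsub S₁ (s.1 i) = 0 := hc i
      rw [h2, map_zero]
    exact h1
  have v₂ : ∀ (d : ℤ) (α : ℂ) (s : S0 E d), O.GE d α s → evv (s : Vec E.a n) Q ≠ 0 →
      α = u₂ * l₂ ^ d := by
    intro d α s hs hv
    refine hu₂' d α s hs ?_
    obtain ⟨y, hy⟩ := hr₂ Q hQ
    by_contra hc
    push Not at hc
    apply hv
    funext i
    have h1 : eval Q (s.1 i) = 0 := by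
      rw [← hy, ← eval_lsub]
      have h2 : lsub S₂ (s.1 i) = 0 := hc i
      rw [h2, map_zero]
    exact h1
  rcases lt_trichotomy q p with hpq | hpq | hpq
  · obtain ⟨hc, τ, t₁, t₂⟩ := O.line W hPQ hl₁ hl₂ hP hQ hs hpq
    have w₁ := t₁ u₁ v₁
    have w₂ := t₂ u₂ v₂
    rw [w₁, hc] at hu₁
    rw [w₂, hc] at hu₂
    exact hne (rel_of hκ0 hl₁ hl₂ hu₁ hu₂)
  · rw [hpq, sub_self, zpow_zero] at hne
    exact hne rfl
  · have hs' : E.SplitsOn P Q q p := by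
      obtain ⟨g₁, g₂, a₁, a₂, a₃⟩ := hs
      refine ⟨g₂, g₁, a₂, a₁, fun z hz => ?_⟩
      obtain ⟨b₁, b₂, b₃⟩ := a₃ z hz
      refine ⟨b₂, b₁, ?_⟩
      rw [LinearIndependent.pair_iff] at b₃ ⊢
      intro a b hab
      have h1 := b₃ b a (by rw [add_comm]; exact hab)
      exact ⟨h1.2, h1.1⟩
    obtain ⟨hc, τ, t₁, t₂⟩ := O.line W hPQ hl₁ hl₂ hP hQ hs' hpq
    have w₁ := t₁ u₁ v₁
    have w₂ := t₂ u₂ v₂
    rw [w₁, hc] at hu₁
    rw [w₂, hc] at hu₂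
    have h3 := rel_of hκ0 hl₁ hl₂ hu₁ hu₂
    apply hne
    rw [← neg_sub, zpow_neg, h3, inv_one]

end Pool.Agent.W467.FO
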