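import Pool.Agent.W615.X2
import Pool.Agent.W615.TwoBlocks

/-!
# Lifts of linear automorphisms to rank two bundles (helper467)

`GOp E T`: an operator on the sections of all twists of `E` which is semilinear with respect to
the substitution `p ↦ p ∘ T`.
-/

set_option autoImplicit false
set_option maxHeartbeats 400000

open MvPolynomial H960VB H938TB Pool.Agent.W615

namespace Pool.Agent.W467.FO

variable {n : ℕ} {E : Bundle2 n}

/-- a lift to `E` of the linear map `T`. -/
structure GOp (E : Bundle2 n) (T : (Fin (n + 1) → ℂ) →ₗ[ℂ] (Fin (n + 1) → ℂ)) where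
  D : Vec E.a n → Vec E.a n
  sec : ∀ (d : ℤ) G, Sec E d G → Sec E d (D G)
  add : ∀ (d : ℤ) G G', Sec E d G → Sec E d G' →
    D (fun i => G i + G' i) = fun i => D G i + D G' i
  mul : ∀ (d e : ℤ) p G, Sec E d G → HomZ p e →
    D (fun i => p * G i) = fun i => lsub T p * D G i
  inj : ∀ (d : ℤ) G, Sec E d G → (∀ i, D G i = 0) → ∀ i, G i = 0

variable {T : (Fin (n + 1) → ℂ) →ₗ[ℂ] (Fin (n + 1) → ℂ)} (O : GOp E T) (W : Wedge (triv E))

/-- the wedge product of the images -/
noncomputable def GOp.Psi (s t : Vec E.a n) : MvPolynomial (Fin (n + 1)) ℂ :=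
  W.wd (O.D s) (O.D t)

theorem GOp.smul_sec {d : ℤ} {s : Vec E.a n} (hs : Sec E d s) (c : ℂ) :
    O.D (fun i => C c * s i) = fun i => C c * O.D s i := by
  have hc : HomZ (C c : MvPolynomial (Fin (n + 1)) ℂ) 0 := Or.inr ⟨0, rfl, isHomogeneous_C _ _⟩
  rw [O.mul d 0 (C c) s hs hc]
  funext i
  have h1 : lsub T (C c) = C c := (lsub T).commutes c
  rw [h1]

theorem GOp.Psi_anti {a b : ℤ} {s t : Vec E.a n} (hs : Sec E a s) (ht : Sec E b t) :
    O.Psi W t s = - O.Psi W s t :=
  W.anti _ _ (O.sec _ _ ht).ker (O.sec _ _ hs).ker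

theorem GOp.Psi_self {a : ℤ} {s : Vec E.a n} (hs : Sec E a s) : O.Psi W s s = 0 :=
  wd_self W (O.sec _ _ hs).ker

theorem GOp.Psi_mul {a b e : ℤ} {s t : Vec E.a n} {p : MvPolynomial (Fin (n + 1)) ℂ}
    (hs : Sec E a s) (ht : Sec E b t) (hp : HomZ p e) :
    O.Psi W (fun i => p * s i) t = lsub T p * O.Psi W s t := by
  unfold GOp.Psi
  rw [O.mul a e p s hs hp, W.smul _ _ _ (O.sec _ _ hs).ker (O.sec _ _ ht).ker]

theorem GOp.Psi_add {a b : ℤ} {s s' t : Vec E.a n} (hs : Sec E a s) (hs' : Sec E a s')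
    (ht : Sec E b t) :
    O.Psi W (fun i => s i + s' i) t = O.Psi W s t + O.Psi W s' t := by
  unfold GOp.Psi
  rw [O.add a s s' hs hs', wd_add_left W (O.sec _ _ hs).ker (O.sec _ _ hs').ker
    (O.sec _ _ ht).ker]

/-- the first relation -/
theorem GOp.rel {a b c e : ℤ} {s t s' t' : Vec E.a n} (hs : Sec E a s) (ht : Sec E b t)
    (hs' : Sec E c s') (ht' : Sec E e t') :
    lsub T (W.wd s t) * O.Psi W s' t' =
      lsub T (W.wd s' t) * O.Psi W s t' - lsub T (W.wd s' s) * O.Psi W t t' := by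
  have h1 : (fun i => W.wd s t * s' i) =
      fun i => W.wd s' t * s i + (- W.wd s' s) * t i := by
    funext i
    have h2 := W.three s' s t hs'.ker hs.ker ht.ker i
    linear_combination h2
  have d1 := wd_homZ W hs ht
  have d2 := wd_homZ W hs' ht
  have d3 : HomZ (- W.wd s' s) (c + a + W.κ.1) := by
    have h3 := wd_homZ W hs hs'
    rw [← W.anti s s' hs.ker hs'.ker]
    convert h3 using 1
    ring
  have e1 := sec_mul d2 hs
  have e2 := sec_mul d3 ht
  have h4 : c + b + W.κ.1 + a = c + a + W.κ.1 + b := by ring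
  rw [h4] at e1
  rw [← O.Psi_mul W hs' ht' d1, h1, O.Psi_add W e1 e2 ht', O.Psi_mul W hs ht' d2,
    O.Psi_mul W ht ht' d3, map_neg]
  ring

theorem GOp.cross {a b c e : ℤ} {s t s' t' : Vec E.a n} (hT : Function.Injective (lsub T))
    (hs : Sec E a s) (ht : Sec E b t) (hs' : Sec E c s') (ht' : Sec E e t') :
    O.Psi W s' t' * lsub T (W.wd s t) = O.Psi W s t * lsub T (W.wd s' t') := by
  have key : ∀ {a b c e : ℤ} {s t s' t' : Vec E.a n}, Sec E a s → Sec E b t →
      Sec E c s' → Sec E e t' →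
      lsub T (W.wd s t) ^ 2 * O.Psi W s' t' =
        lsub T (W.wd s t) * lsub T (W.wd s' t') * O.Psi W s t := by
    intro a b c e s t s' t' hs ht hs' ht'
    have r1 := O.rel W hs ht hs' ht'
    have r2 := O.rel W hs ht ht' hs
    have r3 := O.rel W hs ht ht' ht
    rw [O.Psi_self W hs, O.Psi_anti W hs ht] at r2
    rw [O.Psi_self W ht] at r3
    have a1 := O.Psi_anti W hs ht'
    have a2 := O.Psi_anti W ht ht'
    have f := congrArg (lsub T) (W.four s t s' t' hs.ker ht.ker hs'.ker ht'.ker)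
    have b1 := W.anti s s' hs.ker hs'.ker
    have b2 := W.anti t t' ht.ker ht'.ker
    have b3 := W.anti s t' hs.ker ht'.ker
    have b4 := W.anti t s' ht.ker hs'.ker
    rw [b1, b2, b3, b4] at f
    simp only [map_add, map_sub, map_mul, map_neg, map_zero] at f
    rw [a1] at r2
    rw [a2] at r3
    linear_combination lsub T (W.wd s t) * r1 - lsub T (W.wd s' t) * r2 +
      lsub T (W.wd s' s) * r3 - O.Psi W s t * f
  by_cases h0 : W.wd s t = 0
  · by_cases h1 : W.wd s' t' = 0
    · rw [h0, h1, map_zero, mul_zero, mul_zero]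
    · have h2 := key hs' ht' hs ht
      rw [h0, map_zero] at h2
      rw [h0, map_zero, mul_zero]
      rw [mul_zero, zero_mul] at h2
      have h3 : O.Psi W s t = 0 := (mul_eq_zero.1 h2).resolve_left
        (pow_ne_zero _ (fun h => h1 (hT (by rw [h, map_zero]))))
      rw [h3, zero_mul]
  · have h0' : lsub T (W.wd s t) ≠ 0 := fun h => h0 (hT (by rw [h, map_zero]))
    apply mul_left_cancel₀ h0'
    have h2 := key hs ht hs' ht'
    linear_combination h2

theorem lsub_inj_of_surj {m n : ℕ} {T : (Fin (m + 1) → ℂ) →ₗ[ℂ] (Fin (n + 1) → ℂ)}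
    (hT : Function.Surjective T) : Function.Injective (lsub T) := by
  intro p q h
  apply MvPolynomial.funext
  intro x
  obtain ⟨y, rfl⟩ := hT x
  rw [← eval_lsub, ← eval_lsub, h]

theorem surj_of_inj (hT : Function.Injective T) : Function.Surjective T :=
  LinearMap.injective_iff_surjective.1 hT

/-- the determinant of a lift -/
theorem GOp.det (hn : 1 ≤ n) (hT : Function.Injective T) :
    ∃ κ : ℂ, κ ≠ 0 ∧ ∀ (a b : ℤ) (s t : Vec E.a n), Sec E a s → Sec E b t →
      W.wd (O.D s) (O.D t) = C κ * lsub T (W.wd s t) := by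
  have hTi : Function.Injective (lsub T) := lsub_inj_of_surj (surj_of_inj hT)
  obtain ⟨a, b, G, G', hG, hG', hp⟩ := exists_sec_ne W (fun _ => 1)
    (fun h => by simpa using congrFun h 0)
  have h0 : W.wd G G' ≠ 0 := fun h0 => hp (by rw [h0, map_zero])
  have h0' : lsub T (W.wd G G') ≠ 0 := fun h => h0 (hTi (by rw [h, map_zero]))
  have hd : lsub T (W.wd G G') ∣ O.Psi W G G' := by
    refine dvd_of_primes h0' fun π hπ _ => ?_
    obtain ⟨v, hv, hv0⟩ := no_isolated_prime (by omega) π hπ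
    have hTv : T v ≠ 0 := fun h => hv (hT (by rw [h, map_zero]))
    obtain ⟨a', b', H, H', hH, hH', h2⟩ := exists_sec_ne W (T v) hTv
    refine ⟨lsub T (W.wd H H'), O.Psi W H H', ?_, ?_⟩
    · have := O.cross W hTi hG hG' hH hH'
      linear_combination this
    · rintro ⟨q, hq⟩
      apply h2
      rw [← eval_lsub, hq, map_mul, hv0, zero_mul]
  obtain ⟨f, hf⟩ := hd
  have key : ∃ θ : ℂ, f = C θ := by
    by_cases hf0 : f = 0
    · exact ⟨0, by rw [hf0, C_0]⟩
    · have h1 : IsWeightedHomogeneous (tw (0 : Fin (n + 1) → ℤ × ℤ)) (O.Psi W G G')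
        ((a + b + W.κ.1, 0) : M) := wh_triv (wd_homZ W (O.sec _ _ hG) (O.sec _ _ hG'))
      rw [hf] at h1
      obtain ⟨e, e', hee, he, he'⟩ := hom_of_mul _ h1 (mul_ne_zero h0' hf0)
      have h2 : e = (a + b + W.κ.1, 0) :=
        he.inj_right h0' (wh_triv (homZ_lsub T (wd_homZ W hG hG')))
      rw [h2] at hee
      have h3 : e' = 0 := by
        have := add_left_cancel (a := ((a + b + W.κ.1, 0) : M)) (b := e') (c := 0)
          (by rw [hee, add_zero])
        exact this
      obtain ⟨c, -, hc⟩ := const_of_degree_zero he' hf0 (by rw [h3]; rfl)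
      exact ⟨c, hc⟩
  obtain ⟨θ, rfl⟩ := key
  have hall : ∀ (a b : ℤ) (s t : Vec E.a n), Sec E a s → Sec E b t →
      W.wd (O.D s) (O.D t) = C θ * lsub T (W.wd s t) := by
    intro a' b' s t hs ht
    have h1 := O.cross W hTi hG hG' hs ht
    rw [hf] at h1
    have h2 : O.Psi W s t = C θ * lsub T (W.wd s t) := by
      apply mul_right_cancel₀ h0'
      rw [h1]
      ring
    exact h2
  refine ⟨θ, ?_, hall⟩
  rintro rfl
  have h1 := hall a b G G' hG hG'
  rw [C_0, zero_mul] at h1
  have hpar := par_of_wd W (O.sec _ _ hG).ker (O.sec _ _ hG').ker h1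
  -- the inverse substitution
  let Te := LinearEquiv.ofInjectiveEndo T hT
  have hTe : ∀ p : MvPolynomial (Fin (n + 1)) ℂ,
      lsub T (lsub (Te.symm : (Fin (n + 1) → ℂ) →ₗ[ℂ] (Fin (n + 1) → ℂ)) p) = p := by
    intro p
    apply MvPolynomial.funext
    intro x
    rw [eval_lsub, eval_lsub]
    congr 1
    have h5 : (Te x) = T x := rfl
    rw [← h5]
    simp
  -- all entries of `D G'` vanish
  have hz : ∀ i, O.D G' i = 0 := by
    intro i
    by_contra hi
    set p := lsub (Te.symm : (Fin (n + 1) → ℂ) →ₗ[ℂ] (Fin (n + 1) → ℂ)) (O.D G' i) with hp'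
    set q := lsub (Te.symm : (Fin (n + 1) → ℂ) →ₗ[ℂ] (Fin (n + 1) → ℂ)) (-O.D G i) with hq'
    have dp : HomZ p (E.β i + b) := homZ_lsub _ ((O.sec _ _ hG').homZ i)
    have dq : HomZ q (E.β i + a) := homZ_lsub _ (by
      rcases (O.sec _ _ hG).homZ i with h | ⟨k, hk, hh⟩
      · left; rw [h, neg_zero]
      · right; exact ⟨k, hk, hh.neg⟩)
    have e1 := sec_mul dp hG
    have e2 := sec_mul dq hG'
    have h4 : E.β i + a + b = E.β i + b + a := by ring
    rw [h4] at e2
    have h5 := O.inj _ _ (sec_add e1 e2) (by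
      intro j
      rw [O.add _ _ _ e1 e2, O.mul _ _ _ _ hG dp, O.mul _ _ _ _ hG' dq]
      show lsub T p * O.D G j + lsub T q * O.D G' j = 0
      rw [hp', hq', hTe, hTe]
      have := hpar i j
      linear_combination -this)
    have h6 : W.wd (fun j => p * G j + q * G' j) G' = 0 :=
      wd_zero_left W (sec_add e1 e2).ker hG'.ker h5
    rw [wd_add_left W e1.ker e2.ker hG'.ker, W.smul _ _ _ hG.ker hG'.ker,
      W.smul _ _ _ hG'.ker hG'.ker, wd_self W hG'.ker, mul_zero, add_zero] at h6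
    have h7 : p = 0 := (mul_eq_zero.1 h6).resolve_right h0
    apply hi
    rw [← hTe (O.D G' i), ← hp', h7, map_zero]
  have h8 := O.inj _ _ hG' hz
  exact h0 (wd_zero_right W hG.ker hG'.ker h8)

end Pool.Agent.W467.FO
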