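import Pool.Agent.W467.FO.A

/-!
# Generalised eigensections and restriction to an eigenspace (helper467)
-/

set_option autoImplicit false
set_option maxHeartbeats 400000

open MvPolynomial H960VB H938TB Pool.Agent.W615

namespace Pool.Agent.W467.FO

/-- generalised eigenvectors under a bilinear map compatible with operators. -/
theorem ge_mul {A B C : Type*} [AddCommGroup A] [Module ℂ A] [AddCommGroup B] [Module ℂ B]
    [AddCommGroup C] [Module ℂ C] (f : A →ₗ[ℂ] A) (g : B →ₗ[ℂ] B) (h : C →ₗ[ℂ] C)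
    (β : A →ₗ[ℂ] B →ₗ[ℂ] C)
    (hβ : ∀ a b, β (f a) (g b) = h (β a b)) (l m : ℂ) :
    ∀ (K i j : ℕ) (a : A) (b : B), i + j ≤ K → ((f - l • 1) ^ i) a = 0 → ((g - m • 1) ^ j) b = 0 →
      ((h - (l * m) • 1) ^ K) (β a b) = 0 := by
  intro K
  induction K with
  | zero =>
    intro i j a b hij ha hb
    obtain rfl : i = 0 := by omega
    rw [pow_zero, Module.End.one_apply] at ha
    rw [ha, map_zero, LinearMap.zero_apply, map_zero]
  | succ K ih =>
    intro i j a b hij ha hb
    rcases Nat.eq_zero_or_pos i with hi | hi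
    · subst hi
      rw [pow_zero, Module.End.one_apply] at ha
      rw [ha, map_zero, LinearMap.zero_apply, map_zero]
    rcases Nat.eq_zero_or_pos j with hj | hj
    · subst hj
      rw [pow_zero, Module.End.one_apply] at hb
      rw [hb, map_zero, map_zero]
    obtain ⟨i', rfl⟩ : ∃ i', i = i' + 1 := ⟨i - 1, by omega⟩
    obtain ⟨j', rfl⟩ : ∃ j', j = j' + 1 := ⟨j - 1, by omega⟩
    have h1 : (h - (l * m) • 1) (β a b) = β ((f - l • 1) a) ((g - m • 1) b) +
        m • β ((f - l • 1) a) b + l • β a ((g - m • 1) b) := by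
      have h2 := hβ a b
      simp only [LinearMap.sub_apply, LinearMap.smul_apply, Module.End.one_apply, map_sub, map_smul]
      rw [← h2]
      module
    have ha' : ((f - l • 1) ^ i') ((f - l • 1) a) = 0 := by
      rw [pow_succ, Module.End.mul_apply] at ha
      exact ha
    have hb' : ((g - m • 1) ^ j') ((g - m • 1) b) = 0 := by
      rw [pow_succ, Module.End.mul_apply] at hb
      exact hb
    rw [pow_succ, Module.End.mul_apply, h1, map_add, map_add, map_smul, map_smul,
      ih i' j' _ _ (by omega) ha' hb', ih i' (j' + 1) _ _ (by omega) ha' hb,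
      ih (i' + 1) j' _ _ (by omega) ha hb', smul_zero, smul_zero, add_zero, add_zero]

/-- values of homogeneous polynomials at multiples of a point. -/
theorem eval_smul_homZ {σ : Type*} [Fintype σ] {p : MvPolynomial σ ℂ} {N : ℤ} (hp : HomZ p N)
    (l : ℂ) (x : σ → ℂ) : eval (l • x) p = l ^ N * eval x p := by
  rcases hp with rfl | ⟨k, rfl, hk⟩
  · rw [map_zero, map_zero, mul_zero]
  · rw [zpow_natCast]
    have h1 : eval (l • x) p = ∑ d ∈ p.support, coeff d p * ∏ i, (l • x) i ^ d i := eval_eq' _ _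
    have h2 : eval x p = ∑ d ∈ p.support, coeff d p * ∏ i, x i ^ d i := eval_eq' _ _
    rw [h1, h2, Finset.mul_sum]
    refine Finset.sum_congr rfl fun d hd => ?_
    have h3 : ∑ i, d i = k := by
      have h4 := hk (mem_support_iff.1 hd)
      rw [Finsupp.weight_apply, Finsupp.sum_fintype _ _ (by simp)] at h4
      simpa using h4
    simp only [Pi.smul_apply, smul_eq_mul, mul_pow]
    rw [Finset.prod_mul_distrib, Finset.prod_pow_eq_pow_sum, h3]
    ring

theorem homZ_smul {σ : Type*} {p : MvPolynomial σ ℂ} {N : ℤ} (hp : HomZ p N) (c : ℂ) :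
    HomZ (c • p) N := by
  rcases hp with rfl | ⟨k, hk, h⟩
  · left; rw [smul_zero]
  · right
    refine ⟨k, hk, ?_⟩
    rw [smul_eq_C_mul]
    have := (isHomogeneous_C σ c).mul h
    rwa [zero_add] at this

theorem homZ_sub {σ : Type*} {p q : MvPolynomial σ ℂ} {N : ℤ} (hp : HomZ p N) (hq : HomZ q N) :
    HomZ (p - q) N := by
  rcases hp with rfl | ⟨k, hk, h⟩
  · rcases hq with rfl | ⟨l, hl, h'⟩
    · left; rw [sub_zero]
    · right; exact ⟨l, hl, by rw [zero_sub]; exact h'.neg⟩
  · rcases hq with rfl | ⟨l, hl, h'⟩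
    · right; exact ⟨k, hk, by rw [sub_zero]; exact h⟩
    · right
      refine ⟨k, hk, ?_⟩
      have : l = k := by omega
      subst this
      exact h.sub h'

/-- substitution of a multiple. -/
theorem lsub_smul {m n : ℕ} (S : (Fin (m + 1) → ℂ) →ₗ[ℂ] (Fin (n + 1) → ℂ)) (l : ℂ)
    {p : MvPolynomial (Fin (n + 1)) ℂ} {N : ℤ} (hp : HomZ p N) :
    lsub (l • S) p = (l ^ N) • lsub S p := by
  apply MvPolynomial.funext
  intro x
  rw [eval_lsub, LinearMap.smul_apply, eval_smul_homZ hp, smul_eval, eval_lsub]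

variable {n : ℕ} {E : Bundle2 n} {T : (Fin (n + 1) → ℂ) →ₗ[ℂ] (Fin (n + 1) → ℂ)}
variable (O : GOp E T) (W : Wedge (triv E))

/-- the operator as a linear map -/
noncomputable def GOp.lin (d : ℤ) : S0 E d →ₗ[ℂ] S0 E d where
  toFun G := ⟨O.D G, O.sec d G G.2⟩
  map_add' G H := by
    apply Subtype.ext
    exact O.add d G H G.2 H.2
  map_smul' c G := by
    apply Subtype.ext
    have h1 := O.smul_sec G.2 c
    have h2 : ∀ H : Vec E.a n, c • H = fun i => C c * H i := by
      intro H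
      funext i
      rw [Pi.smul_apply, smul_eq_C_mul]
    show O.D (c • (G : Vec E.a n)) = c • O.D G
    rw [h2, h2, h1]

/-- the operator on polynomials -/
noncomputable def hM (T : (Fin (n + 1) → ℂ) →ₗ[ℂ] (Fin (n + 1) → ℂ)) (κ : ℂ) :
    MvPolynomial (Fin (n + 1)) ℂ →ₗ[ℂ] MvPolynomial (Fin (n + 1)) ℂ := κ • (lsub T).toLinearMap

theorem hM_apply (κ : ℂ) (p : MvPolynomial (Fin (n + 1)) ℂ) : hM T κ p = κ • lsub T p := rfl

/-- generalised eigensections -/
def GOp.GE (d : ℤ) (α : ℂ) (s : S0 E d) : Prop := ∃ k : ℕ, ((O.lin d - α • 1) ^ k) s = 0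

theorem GOp.ge_wd {κ : ℂ} (hκ : ∀ (a b : ℤ) (s t : Vec E.a n), Sec E a s → Sec E b t →
      W.wd (O.D s) (O.D t) = C κ * lsub T (W.wd s t)) {d e : ℤ} {α β : ℂ} {s : S0 E d}
    {t : S0 E e} (hs : O.GE d α s) (ht : O.GE e β t) :
    ∃ K : ℕ, ((hM T κ - (α * β) • 1) ^ K) (W.wd s t) = 0 := by
  obtain ⟨i, hi⟩ := hs
  obtain ⟨j, hj⟩ := ht
  refine ⟨i + j, ?_⟩
  have h1 := ge_mul (O.lin d) (O.lin e) (hM T κ) (wdB W d e) (fun a b => by
    rw [wdB_apply, wdB_apply, hM_apply, smul_eq_C_mul]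
    exact hκ d e a b a.2 b.2) α β (i + j) i j s t (le_refl _) hi hj
  rwa [wdB_apply] at h1

/-- restriction to an eigenspace -/
theorem res_pow {m : ℕ} {S : (Fin (m + 1) → ℂ) →ₗ[ℂ] (Fin (n + 1) → ℂ)} {l : ℂ}
    (hS : T ∘ₗ S = l • S) (κ μ : ℂ) {N : ℤ} : ∀ (K : ℕ) (p : MvPolynomial (Fin (n + 1)) ℂ),
    HomZ p N → lsub S (((hM T κ - μ • 1) ^ K) p) = (κ * l ^ N - μ) ^ K • lsub S p := by
  intro K
  induction K with
  | zero => intro p _; rw [pow_zero, pow_zero, one_smul, Module.End.one_apply]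
  | succ K ih =>
    intro p hp
    have h1 : (hM T κ - μ • 1) p = κ • lsub T p - μ • p := rfl
    have h2 : HomZ ((hM T κ - μ • 1) p) N := by
      rw [h1]
      exact homZ_sub (homZ_smul (homZ_lsub T hp) _) (homZ_smul hp _)
    rw [pow_succ, Module.End.mul_apply, ih _ h2, h1, map_sub, map_smul, map_smul, lsub_comp, hS,
      lsub_smul S l hp]
    module

/-- the types of two generalised eigensections with nonzero wedge product on an eigenspace. -/
theorem GOp.type_rel {κ : ℂ} (hκ : ∀ (a b : ℤ) (s t : Vec E.a n), Sec E a s → Sec E b t →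
      W.wd (O.D s) (O.D t) = C κ * lsub T (W.wd s t)) {m : ℕ}
    {S : (Fin (m + 1) → ℂ) →ₗ[ℂ] (Fin (n + 1) → ℂ)} {l : ℂ}
    (hS : T ∘ₗ S = l • S) {d e : ℤ} {α β : ℂ} {s : S0 E d}
    {t : S0 E e} (hs : O.GE d α s) (ht : O.GE e β t) (h : lsub S (W.wd s t) ≠ 0) :
    α * β = κ * l ^ (d + e + W.κ.1) := by
  obtain ⟨K, hK⟩ := O.ge_wd W hκ hs ht
  have h1 := res_pow hS κ (α * β) (N := d + e + W.κ.1) K (W.wd s t) (wd_homZ W s.2 t.2)
  rw [hK, map_zero] at h1
  have h2 := (smul_eq_zero.1 h1.symm).resolve_right h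
  by_cases hK0 : K = 0
  · rw [hK0, pow_zero] at h2
    exact absurd h2 one_ne_zero
  · have h4 := pow_eq_zero_iff hK0 |>.1 h2
    linear_combination -h4

/-- generalised eigensections span the fibres. -/
theorem GOp.exists_ge : ∃ d : ℤ, ∀ x : Fin (n + 1) → ℂ, x ≠ 0 →
    ∃ (α β : ℂ) (s t : S0 E d), O.GE d α s ∧ O.GE d β t ∧ eval x (W.wd s t) ≠ 0 := by
  obtain ⟨d, hd⟩ := exists_deg W
  refine ⟨d, fun x hx => ?_⟩
  obtain ⟨G, G', hG, hG', hne⟩ := hd x hx
  obtain ⟨r, v, ε, k, hv, hspan⟩ := exists_ge_family (O.lin d)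
  by_contra hc
  push Not at hc
  have h1 : ∀ i j, eval x (W.wd (v i) (v j)) = 0 := fun i j =>
    hc (ε i) (ε j) (v i) (v j) ⟨k i, hv i⟩ ⟨k j, hv j⟩
  have h2 : ∀ j, ∀ s : S0 E d, eval x (W.wd s (v j)) = 0 := by
    intro j s
    have hs : s ∈ Submodule.span ℂ (Set.range v) := by rw [hspan]; trivial
    induction hs using Submodule.span_induction with
    | mem y hy => obtain ⟨i, rfl⟩ := hy; exact h1 i j
    | zero =>
      have : wdB W d d 0 (v j) = 0 := by rw [map_zero, LinearMap.zero_apply]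
      rw [wdB_apply] at this
      rw [this, map_zero]
    | add y z _ _ hy hz =>
      have : wdB W d d (y + z) (v j) = wdB W d d y (v j) + wdB W d d z (v j) := by
        rw [map_add, LinearMap.add_apply]
      rw [wdB_apply, wdB_apply, wdB_apply] at this
      rw [this, map_add, hy, hz, add_zero]
    | smul c y _ hy =>
      have : wdB W d d (c • y) (v j) = c • wdB W d d y (v j) := by
        rw [map_smul, LinearMap.smul_apply]
      rw [wdB_apply, wdB_apply] at this
      rw [this, smul_eval, hy, mul_zero]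
  have h3 : ∀ s t : S0 E d, eval x (W.wd s t) = 0 := by
    intro s t
    have ht : t ∈ Submodule.span ℂ (Set.range v) := by rw [hspan]; trivial
    induction ht using Submodule.span_induction with
    | mem y hy => obtain ⟨i, rfl⟩ := hy; exact h2 i s
    | zero =>
      have : wdB W d d s 0 = 0 := by rw [map_zero]
      rw [wdB_apply] at this
      rw [this, map_zero]
    | add y z _ _ hy hz =>
      have : wdB W d d s (y + z) = wdB W d d s y + wdB W d d s z := by
        rw [map_add]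
      rw [wdB_apply, wdB_apply, wdB_apply] at this
      rw [this, map_add, hy, hz, add_zero]
    | smul c y _ hy =>
      have : wdB W d d s (c • y) = c • wdB W d d s y := by
        rw [map_smul]
      rw [wdB_apply, wdB_apply] at this
      rw [this, smul_eval, hy, mul_zero]
  exact hne (h3 ⟨G, hG⟩ ⟨G', hG'⟩)

end Pool.Agent.W467.FO
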