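import Pool.Agent.W467.FO.B

/-!
# Restriction of the wedge product; the type of a bundle along an eigenspace (helper467)
-/

set_option autoImplicit false
set_option maxHeartbeats 400000

open MvPolynomial H960VB H938TB Pool.Agent.W615

namespace Pool.Agent.W467.FO

section restrict

variable {m n : ℕ} {E : Bundle2 n} (S : (Fin (m + 1) → ℂ) →ₗ[ℂ] (Fin (n + 1) → ℂ))
  (hSi : Function.Injective S)

/-- restriction of a vector of polynomials -/
noncomputable def rs {a : ℕ} (G : Vec a n) : Vec a m := fun i => lsub S (G i)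

theorem rs_ker {G : Vec E.a n} (h : Ker E G) : Ker (E.pull S hSi) (rs S G) := h.pull S hSi

theorem rs_sec {d : ℤ} {G : Vec E.a n} (h : Sec E d G) : Sec (E.pull S hSi) d (rs S G) := by
  apply sec_of_isSection
  have h1 := isSection h
  refine ⟨fun i => homZ_lsub S (h1.1 i), fun x hx => ?_⟩
  have h2 := h1.2 (S x) (fun h0 => hx (hSi (by rw [h0, map_zero])))
  rw [Bundle2.fib_pull]
  have h3 : evv (rs S G) x = evv G (S x) := by
    funext i
    exact eval_lsub S x (G i)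
  exact (show evv (rs S G) x ∈ E.fib (S x) from h3 ▸ h2)

variable (W : Wedge (triv E)) (W' : Wedge (triv (E.pull S hSi)))

theorem wd_restrict (hm : 1 ≤ m) : W'.κ.1 = W.κ.1 ∧ ∃ ω : ℂ, ω ≠ 0 ∧
    ∀ s t : Vec E.a n, Ker E s → Ker E t → W'.wd (rs S s) (rs S t) = C ω * lsub S (W.wd s t) := by
  have hne1 : (fun _ => 1 : Fin (m + 1) → ℂ) ≠ 0 := fun h => by simpa using congrFun h 0
  have hSx : ∀ x : Fin (m + 1) → ℂ, x ≠ 0 → S x ≠ 0 := fun x hx h0 =>
    hx (hSi (by rw [h0, map_zero]))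
  obtain ⟨a, b, s, t, hs, ht, hp⟩ := exists_sec_ne W _ (hSx _ hne1)
  set w := lsub S (W.wd s t) with hw
  set w' := W'.wd (rs S s) (rs S t) with hw'
  have R : ∀ (s t : Vec E.a n), Ker E s → Ker E t → ∀ i j,
      W'.wd (rs S s) (rs S t) * W'.P i j = lsub S (W.wd s t) * lsub S (W.P i j) := by
    intro s t hs ht i j
    rw [← W'.eq _ _ (rs_ker S hSi hs) (rs_ker S hSi ht) i j, ← map_mul, ← W.eq s t hs ht i j]
    simp only [rs, map_sub, map_mul]
  have hw0 : w ≠ 0 := by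
    intro h0
    apply hp
    rw [← eval_lsub, ← hw, h0, map_zero]
  have hPS : ∀ x : Fin (m + 1) → ℂ, x ≠ 0 → ∃ i j, eval x (lsub S (W.P i j)) ≠ 0 := by
    intro x hx
    obtain ⟨i, j, h⟩ := W.P_ne (S x) (hSx x hx)
    exact ⟨i, j, by rw [eval_lsub]; exact h⟩
  have hw0' : w' ≠ 0 := by
    intro h0
    obtain ⟨i, j, h⟩ := hPS _ hne1
    have h1 := R s t hs.ker ht.ker i j
    rw [← hw', ← hw, h0, zero_mul] at h1
    have h2 := (mul_eq_zero.1 h1.symm).resolve_left hw0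
    apply h
    rw [h2, map_zero]
  have d1 : w ∣ w' := by
    refine dvd_of_primes hw0 fun π hπ _ => ?_
    obtain ⟨v, hv, hv0⟩ := no_isolated_prime (by omega) π hπ
    obtain ⟨i, j, h⟩ := W'.P_ne v hv
    refine ⟨W'.P i j, lsub S (W.P i j), ?_, ?_⟩
    · have := R s t hs.ker ht.ker i j
      rw [← hw', ← hw] at this
      linear_combination -this
    · rintro ⟨q, hq⟩
      apply h
      rw [hq, map_mul, hv0, zero_mul]
  have d2 : w' ∣ w := by
    refine dvd_of_primes hw0' fun π hπ _ => ?_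
    obtain ⟨v, hv, hv0⟩ := no_isolated_prime (by omega) π hπ
    obtain ⟨i, j, h⟩ := hPS v hv
    refine ⟨lsub S (W.P i j), W'.P i j, ?_, ?_⟩
    · have := R s t hs.ker ht.ker i j
      rw [← hw', ← hw] at this
      linear_combination this
    · rintro ⟨q, hq⟩
      apply h
      rw [hq, map_mul, hv0, zero_mul]
  obtain ⟨ω, hω, hω'⟩ : ∃ ω : ℂ, ω ≠ 0 ∧ w' = C ω * w := by
    obtain ⟨f, hf⟩ := d1
    obtain ⟨f', hf'⟩ := d2
    have h1 : f * f' = 1 := by
      apply mul_left_cancel₀ hw0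
      rw [mul_one, ← mul_assoc, ← hf, ← hf']
    have h2 : IsUnit f := IsUnit.of_mul_eq_one _ h1
    rw [MvPolynomial.isUnit_iff_eq_C_of_isReduced] at h2
    obtain ⟨c, hc, rfl⟩ := h2
    exact ⟨c, hc.ne_zero, by rw [hf, mul_comm]⟩
  have hP : ∀ i j, lsub S (W.P i j) = C ω * W'.P i j := by
    intro i j
    apply mul_left_cancel₀ hw0
    have h1 := R s t hs.ker ht.ker i j
    rw [← hw', ← hw, hω'] at h1
    linear_combination -h1
  refine ⟨?_, ω, hω, ?_⟩
  · have h1 : IsWeightedHomogeneous (tw (0 : Fin (m + 1) → ℤ × ℤ)) w'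
        ((a + b + W'.κ.1, 0) : M) := wh_triv (wd_homZ W' (rs_sec S hSi hs) (rs_sec S hSi ht))
    have h2 : IsWeightedHomogeneous (tw (0 : Fin (m + 1) → ℤ × ℤ)) w'
        ((a + b + W.κ.1, 0) : M) := by
      rw [hω', ← smul_eq_C_mul]
      exact wh_triv (homZ_smul (homZ_lsub S (wd_homZ W hs ht)) ω)
    have h3 := congrArg Prod.fst (h1.inj_right hw0' h2)
    simpa using h3
  · intro s' t' hs' ht'
    obtain ⟨i, j, h⟩ := W'.P_ne _ hne1
    have h0 : W'.P i j ≠ 0 := fun h0 => h (by rw [h0, map_zero])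
    apply mul_right_cancel₀ h0
    have h5 := R s' t' hs' ht' i j
    have h6 : lsub S (W.P i j) = C ω * W'.P i j := hP i j
    linear_combination h5 + lsub S (W.wd s' t') * h6

end restrict

theorem zero_of_key {m : ℕ} {E' : Bundle2 m} (W' : Wedge (triv E')) {s s' k k' : Vec E'.a m}
    (hs : Ker E' s) (hs' : Ker E' s') (hk : Ker E' k) (hk' : Ker E' k') {x : Fin (m + 1) → ℂ}
    (h1 : eval x (W'.wd s s') = 0)
    (h2 : (∃ f, ∀ i, k i = f * s i) ∨ (∃ f, ∀ i, k i = f * s' i))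
    (h3 : (∃ f, ∀ i, k' i = f * s i) ∨ (∃ f, ∀ i, k' i = f * s' i)) :
    eval x (W'.wd k k') = 0 := by
  rcases h2 with ⟨f, hf⟩ | ⟨f, hf⟩ <;> rcases h3 with ⟨f', hf'⟩ | ⟨f', hf'⟩
  · rw [wd_of_mul_left W' hs hk' hf, wd_of_mul_right W' hs hs hf', wd_self W' hs]
    simp
  · rw [wd_of_mul_left W' hs hk' hf, wd_of_mul_right W' hs' hs hf', map_mul, map_mul, h1]
    simp
  · rw [wd_of_mul_left W' hs' hk' hf, wd_of_mul_right W' hs hs' hf',
      W'.anti s' s hs' hs, map_mul, map_mul, map_neg, h1]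
    simp
  · rw [wd_of_mul_left W' hs' hk' hf, wd_of_mul_right W' hs' hs' hf', wd_self W' hs']
    simp

section types

variable {n : ℕ} {E : Bundle2 n} {T : (Fin (n + 1) → ℂ) →ₗ[ℂ] (Fin (n + 1) → ℂ)}
variable (O : GOp E T) (W : Wedge (triv E))

/-- The type of a nonsplit bundle along an eigenspace. -/
theorem GOp.typeV {κ : ℂ} (hκ0 : κ ≠ 0)
    (hκ : ∀ (a b : ℤ) (s t : Vec E.a n), Sec E a s → Sec E b t →
      W.wd (O.D s) (O.D t) = C κ * lsub T (W.wd s t)) {m : ℕ} (hm : 1 ≤ m)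
    (S : (Fin (m + 1) → ℂ) →ₗ[ℂ] (Fin (n + 1) → ℂ)) (hSi : Function.Injective S) {l : ℂ}
    (hl : l ≠ 0) (hS : T ∘ₗ S = l • S) (hE : ¬ (E.pull S hSi).Splits) :
    ∃ u : ℂ, u * u = κ * l ^ W.κ.1 ∧ ∀ (d : ℤ) (α : ℂ) (s : S0 E d), O.GE d α s →
      (∃ i, rs S s.1 i ≠ 0) → α = u * l ^ d := by
  obtain ⟨W'⟩ := exists_wedge hm (triv (E.pull S hSi))
  obtain ⟨hκ', ω, hω, hres⟩ := wd_restrict S hSi W W' hm
  have hne1 : (fun _ => 1 : Fin (m + 1) → ℂ) ≠ 0 := fun h => by simpa using congrFun h 0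
  have hSx : ∀ x : Fin (m + 1) → ℂ, x ≠ 0 → S x ≠ 0 := fun x hx h0 =>
    hx (hSi (by rw [h0, map_zero]))
  obtain ⟨d, hd⟩ := O.exists_ge W
  -- the relation between the types
  have rel : ∀ (e e' : ℤ) (α β : ℂ) (s : S0 E e) (t : S0 E e'), O.GE e α s → O.GE e' β t →
      W'.wd (rs S s.1) (rs S t.1) ≠ 0 → (α * l ^ (-e)) * (β * l ^ (-e')) = κ * l ^ W.κ.1 := by
    intro e e' α β s t hs ht h
    have h1 : lsub S (W.wd s t) ≠ 0 := by
      intro h0
      apply h
      rw [hres _ _ s.2.ker t.2.ker, h0, mul_zero]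
    have h2 := O.type_rel W hκ hS hs ht h1
    have h3 : l ^ (d + d) ≠ 0 := zpow_ne_zero _ hl
    calc (α * l ^ (-e)) * (β * l ^ (-e')) = (α * β) * (l ^ (-e) * l ^ (-e')) := by ring
      _ = κ * (l ^ (e + e' + W.κ.1) * (l ^ (-e) * l ^ (-e'))) := by rw [h2]; ring
      _ = κ * l ^ W.κ.1 := by
        rw [← zpow_add₀ hl, ← zpow_add₀ hl]
        congr 2
        ring
  set c0 := κ * l ^ W.κ.1 with hc0
  have hc00 : c0 ≠ 0 := mul_ne_zero hκ0 (zpow_ne_zero _ hl)
  obtain ⟨α, β, H, H', hH, hH', hne⟩ := hd (S fun _ => 1) (hSx _ hne1)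
  set a := α * l ^ (-d) with ha
  set b := β * l ^ (-d) with hb
  have h0 : W'.wd (rs S H.1) (rs S H'.1) ≠ 0 := by
    rw [hres _ _ H.2.ker H'.2.ker]
    refine mul_ne_zero ?_ ?_
    · rw [Ne, C_eq_zero]; exact hω
    · intro h1
      apply hne
      rw [← eval_lsub, h1, map_zero]
  have hab : a * b = c0 := rel d d α β H H' hH hH' h0
  have ha0 : a ≠ 0 := by rintro h; rw [h, zero_mul] at hab; exact hc00 hab.symm
  have hb0 : b ≠ 0 := by rintro h; rw [h, mul_zero] at hab; exact hc00 hab.symm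
  have sH := rs_sec S hSi H.2
  have sH' := rs_sec S hSi H'.2
  by_cases hne2 : a = b
  · refine ⟨a, ?_, ?_⟩
    · rw [← hab, ← hne2]
    · intro e γ K hK hK0
      have hKs := rs_sec S hSi K.2
      have h2 : γ * l ^ (-e) = a := by
        rcases wd_ne_or W' sH.ker sH'.ker hKs.ker h0 hK0 with h3 | h3
        · have h4 := rel _ _ _ _ H K hH hK h3
          rw [← ha, ← hab, ← hne2] at h4
          exact mul_left_cancel₀ ha0 h4
        · have h4 := rel _ _ _ _ H' K hH' hK h3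
          rw [← hb, ← hab, ← hne2] at h4
          exact mul_left_cancel₀ ha0 h4
      rw [← h2, mul_assoc, ← zpow_add₀ hl, neg_add_cancel, zpow_zero, mul_one]
  · exfalso
    apply hE
    obtain ⟨δ, g, s, hg0, hg, hs, hsp, hGs⟩ := exists_prm sH (ne_of_wd_left W' sH.ker sH'.ker h0)
    obtain ⟨δ', g', s', hg0', hg', hs', hsp', hGs'⟩ :=
      exists_prm sH' (ne_of_wd_right W' sH.ker sH'.ker h0)
    have key : ∀ (e : ℤ) (γ : ℂ) (K : S0 E e), O.GE e γ K →
        (∃ f, ∀ i, rs S K.1 i = f * s i) ∨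
        (∃ f, ∀ i, rs S K.1 i = f * s' i) := by
      intro e γ K hK
      have hKs := rs_sec S hSi K.2
      by_cases h1 : W'.wd (rs S H.1) (rs S K.1) = 0
      · left
        apply hsp.dvd_wd W' hs.ker hKs.ker
        rw [wd_of_mul_left W' hs.ker hKs.ker hGs] at h1
        exact (mul_eq_zero.1 h1).resolve_left hg0
      · by_cases h2 : W'.wd (rs S H'.1) (rs S K.1) = 0
        · right
          apply hsp'.dvd_wd W' hs'.ker hKs.ker
          rw [wd_of_mul_left W' hs'.ker hKs.ker hGs'] at h2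
          exact (mul_eq_zero.1 h2).resolve_left hg0'
        · exfalso
          have h3 := rel _ _ _ _ H K hH hK h1
          have h4 := rel _ _ _ _ H' K hH' hK h2
          rw [← ha, ← hab] at h3
          rw [← hb, ← hab, mul_comm a b] at h4
          exact hne2 ((mul_left_cancel₀ hb0 h4).symm.trans (mul_left_cancel₀ ha0 h3))
    refine splits_of_no_zero W' hm hs hs' fun x hx h1 => ?_
    obtain ⟨γ, γ', K, K', hK, hK', h2'⟩ := hd (S x) (hSx x hx)
    have hKs := rs_sec S hSi K.2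
    have hKs' := rs_sec S hSi K'.2
    have h2 : eval x (W'.wd (rs S K.1) (rs S K'.1)) ≠ 0 := by
      rw [hres _ _ K.2.ker K'.2.ker, map_mul, eval_C, eval_lsub]
      exact mul_ne_zero hω h2'
    exact h2 (zero_of_key W' hs.ker hs'.ker hKs.ker hKs'.ker h1 (key d γ K hK) (key d γ' K' hK'))

end types

end Pool.Agent.W467.FO
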