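import Pool.Agent.W467.FO.C

/-!
# The splitting type on a line joining two eigenspaces (helper467)
-/

set_option autoImplicit false
set_option maxHeartbeats 400000

open MvPolynomial H960VB H938TB Pool.Agent.W615

namespace Pool.Agent.W467.FO

variable {n : ℕ} {E : Bundle2 n} {T : (Fin (n + 1) → ℂ) →ₗ[ℂ] (Fin (n + 1) → ℂ)}
variable (O : GOp E T) (W : Wedge (triv E))

/-- the operator applied to the three term relation -/
theorem GOp.three {a b c : ℤ} {s t r : Vec E.a n} (hs : Sec E a s) (ht : Sec E b t)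
    (hr : Sec E c r) (i : Fin E.a) :
    lsub T (W.wd s t) * O.D r i = lsub T (W.wd r t) * O.D s i - lsub T (W.wd r s) * O.D t i := by
  have h1 : (fun i => W.wd s t * r i) =
      fun i => W.wd r t * s i + (- W.wd r s) * t i := by
    funext i
    have h2 := W.three r s t hr.ker hs.ker ht.ker i
    linear_combination h2
  have d1 := wd_homZ W hs ht
  have d2 := wd_homZ W hr ht
  have d3 : HomZ (- W.wd r s) (c + a + W.κ.1) := by
    have h3 := wd_homZ W hs hr
    rw [← W.anti s r hs.ker hr.ker]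
    convert h3 using 1
    ring
  have e1 := sec_mul d2 hs
  have e2 := sec_mul d3 ht
  have h4 : c + b + W.κ.1 + a = c + a + W.κ.1 + b := by ring
  rw [h4] at e1
  have h5 := congrArg O.D h1
  rw [O.mul _ _ _ _ hr d1, O.add _ _ _ e1 e2, O.mul _ _ _ _ hs d2, O.mul _ _ _ _ ht d3] at h5
  have h6 := congrFun h5 i
  simp only [map_neg] at h6
  linear_combination h6

theorem wd_lin {m : ℕ} {E' : Bundle2 m} (W' : Wedge (triv E')) {g k₁ k₂ k₃ : Vec E'.a m}
    (hg : Ker E' g) (h₁ : Ker E' k₁) (h₂ : Ker E' k₂) (h₃ : Ker E' k₃)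
    {a b c : MvPolynomial (Fin (m + 1)) ℂ} (h : ∀ i, a * k₃ i = b * k₁ i - c * k₂ i) :
    a * W'.wd g k₃ = b * W'.wd g k₁ - c * W'.wd g k₂ := by
  have h1 : (fun i => a * k₃ i) = fun i => b * k₁ i - c * k₂ i := funext h
  have h3 : W'.wd g (fun i => a * k₃ i) = W'.wd g (fun i => b * k₁ i - c * k₂ i) := by rw [h1]
  rw [wd_mul_right W' h₃ hg, wd_sub_right W' (ker_mul h₁ _) (ker_mul h₂ _) hg,
    wd_mul_right W' h₁ hg, wd_mul_right W' h₂ hg] at h3
  exact h3

/-- the diagonal map of the plane -/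
noncomputable def dg (l₁ l₂ : ℂ) : (Fin (1 + 1) → ℂ) →ₗ[ℂ] (Fin (1 + 1) → ℂ) where
  toFun z := ![l₁ * z 0, l₂ * z 1]
  map_add' x y := by
    ext i
    fin_cases i <;> simp [mul_add]
  map_smul' c x := by
    ext i
    fin_cases i <;> simp <;> ring

/-- the line through `P` and `Q` -/
noncomputable def ln (P Q : Fin (n + 1) → ℂ) : (Fin (1 + 1) → ℂ) →ₗ[ℂ] (Fin (n + 1) → ℂ) where
  toFun z := z 0 • P + z 1 • Q
  map_add' x y := by
    simp only [Pi.add_apply]
    module
  map_smul' c x := by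
    simp only [Pi.smul_apply, smul_eq_mul, RingHom.id_apply]
    module

theorem ln_apply (P Q : Fin (n + 1) → ℂ) (z : Fin (1 + 1) → ℂ) : ln P Q z = z 0 • P + z 1 • Q := rfl

theorem ln_injective {P Q : Fin (n + 1) → ℂ} (h : LinearIndependent ℂ ![P, Q]) :
    Function.Injective (ln P Q) := by
  rw [← LinearMap.ker_eq_bot, LinearMap.ker_eq_bot']
  intro z hz
  rw [LinearIndependent.pair_iff] at h
  obtain ⟨h0, h1⟩ := h _ _ hz
  ext i
  fin_cases i
  · exact h0
  · exact h1

theorem ln_comp {P Q : Fin (n + 1) → ℂ} {l₁ l₂ : ℂ} (hP : T P = l₁ • P) (hQ : T Q = l₂ • Q) :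
    T ∘ₗ ln P Q = ln P Q ∘ₗ dg l₁ l₂ := by
  apply LinearMap.ext
  intro z
  rw [LinearMap.comp_apply, LinearMap.comp_apply, ln_apply, ln_apply, map_add, map_smul, map_smul,
    hP, hQ]
  simp only [dg, LinearMap.coe_mk, AddHom.coe_mk, Matrix.cons_val_zero, Matrix.cons_val_one]
  module

theorem dg_injective {l₁ l₂ : ℂ} (h₁ : l₁ ≠ 0) (h₂ : l₂ ≠ 0) : Function.Injective (dg l₁ l₂) := by
  rw [← LinearMap.ker_eq_bot, LinearMap.ker_eq_bot']
  intro z hz
  have e0 := congrFun hz 0
  have e1 := congrFun hz 1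
  have f0 : l₁ * z 0 = 0 := e0
  have f1 : l₂ * z 1 = 0 := e1
  ext i
  fin_cases i
  · exact (mul_eq_zero.1 f0).resolve_left h₁
  · exact (mul_eq_zero.1 f1).resolve_left h₂

/-- the two types along the eigenspaces and the smaller degree of the line. -/
theorem GOp.line {P Q : Fin (n + 1) → ℂ} (hPQ : LinearIndependent ℂ ![P, Q]) {l₁ l₂ : ℂ}
    (hl₁ : l₁ ≠ 0) (hl₂ : l₂ ≠ 0) (hP : T P = l₁ • P) (hQ : T Q = l₂ • Q) {p q : ℤ}
    (hs : E.SplitsOn P Q p q) (hpq : q < p) : W.κ.1 = p + q ∧ ∃ τ : ℂ,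
    (∀ (u : ℂ), (∀ (d : ℤ) (α : ℂ) (s : S0 E d), O.GE d α s → evv (s : Vec E.a n) P ≠ 0 →
      α = u * l₁ ^ d) → u = τ * l₁ ^ q) ∧
    (∀ (u : ℂ), (∀ (d : ℤ) (α : ℂ) (s : S0 E d), O.GE d α s → evv (s : Vec E.a n) Q ≠ 0 →
      α = u * l₂ ^ d) → u = τ * l₂ ^ q) := by
  have hL := ln_injective hPQ
  set L := ln P Q with hLdef
  set δ := dg l₁ l₂ with hδ
  have hδi : Function.Injective δ := dg_injective hl₁ hl₂
  have hδl : Function.Injective (lsub δ) := lsub_inj_of_surj (surj_of_inj hδi)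
  have hLδ : T ∘ₗ L = L ∘ₗ δ := ln_comp hP hQ
  have hLx : ∀ x : Fin (1 + 1) → ℂ, x ≠ 0 → L x ≠ 0 := fun x hx h0 =>
    hx (hL (by rw [h0, map_zero]))
  obtain ⟨W'⟩ := exists_wedge (le_refl 1) (triv (E.pull L hL))
  obtain ⟨hκ', ω, hω, hres⟩ := wd_restrict L hL W W' (le_refl 1)
  obtain ⟨g₁, g₂, hg₁, hg₂, hg⟩ := hs
  have s₁ : Sec (E.pull L hL) (-p) g₁ := by
    apply sec_of_isSection
    refine ⟨fun i => hg₁ i, fun z hz => ?_⟩
    rw [Bundle2.fib_pull]
    exact (hg z hz).1
  have s₂ : Sec (E.pull L hL) (-q) g₂ := by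
    apply sec_of_isSection
    refine ⟨fun i => hg₂ i, fun z hz => ?_⟩
    rw [Bundle2.fib_pull]
    exact (hg z hz).2.1
  obtain ⟨c, hc, hc'⟩ := const_of_no_zero (m := 1 + 1) (le_refl 2) (p := W'.wd g₁ g₂)
    (fun z hz => (W'.ind z hz g₁ g₂ s₁.ker s₂.ker).2 (hg z hz).2.2)
  have hsum : W.κ.1 = p + q := by
    have h1 := wh_triv (wd_homZ W' s₁ s₂)
    rw [hc'] at h1
    have h2 : IsWeightedHomogeneous (tw (0 : Fin (1 + 1) → ℤ × ℤ)) (C c : MvPolynomial _ ℂ)
        ((0, 0) : M) := wh_triv (Or.inr ⟨0, rfl, isHomogeneous_C _ c⟩)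
    have h3 := congrArg Prod.fst (h1.inj_right (by rw [Ne, C_eq_zero]; exact hc) h2)
    rw [← hκ']
    have h4 : -p + -q + W'.κ.1 = 0 := h3
    linarith
  -- the component in the quotient line bundle
  set b : Vec E.a n → MvPolynomial (Fin (1 + 1)) ℂ := fun s => W'.wd g₁ (rs L s) with hb
  have hbhom : ∀ {d : ℤ} {s : Vec E.a n}, Sec E d s → HomZ (b s) (d + q) := by
    intro d s hs
    have h1 := wd_homZ W' s₁ (rs_sec L hL hs)
    convert h1 using 1
    rw [hκ', hsum]
    ring
  have hcomm : ∀ f : MvPolynomial (Fin (n + 1)) ℂ, lsub L (lsub T f) = lsub δ (lsub L f) := by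
    intro f
    rw [lsub_comp, lsub_comp, hLδ]
  set mm : Vec E.a n → Vec E.a n → MvPolynomial (Fin (1 + 1)) ℂ := fun s t =>
    lsub L (W.wd s t) with hmm
  -- the three term relations
  have r1 : ∀ {d e f : ℤ} {s t r : Vec E.a n}, Sec E d s → Sec E e t → Sec E f r →
      mm s t * b r = mm r t * b s - mm r s * b t := by
    intro d e f s t r hs ht hr
    have k1 := rs_sec L hL hs
    have k2 := rs_sec L hL ht
    have k3 := rs_sec L hL hr
    have h1 : ∀ i, mm s t * rs L r i = mm r t * rs L s i - mm r s * rs L t i := by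
      intro i
      have h2 := congrArg (lsub L) (W.three r s t hr.ker hs.ker ht.ker i)
      simp only [map_add, map_sub, map_mul, map_zero] at h2
      simp only [hmm, rs]
      linear_combination h2
    exact wd_lin W' s₁.ker k1.ker k2.ker k3.ker h1
  have r2 : ∀ {d e f : ℤ} {s t r : Vec E.a n}, Sec E d s → Sec E e t → Sec E f r →
      lsub δ (mm s t) * b (O.D r) = lsub δ (mm r t) * b (O.D s) - lsub δ (mm r s) * b (O.D t) := by
    intro d e f s t r hs ht hr
    have k1 := rs_sec L hL (O.sec _ _ hs)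
    have k2 := rs_sec L hL (O.sec _ _ ht)
    have k3 := rs_sec L hL (O.sec _ _ hr)
    have h1 : ∀ i, lsub δ (mm s t) * rs L (O.D r) i =
        lsub δ (mm r t) * rs L (O.D s) i - lsub δ (mm r s) * rs L (O.D t) i := by
      intro i
      have h2 := congrArg (lsub L) (O.three W hs ht hr i)
      simp only [map_sub, map_mul, hcomm] at h2
      exact h2
    exact wd_lin W' s₁.ker k1.ker k2.ker k3.ker h1
  -- the defect
  set XX : Vec E.a n → Vec E.a n → MvPolynomial (Fin (1 + 1)) ℂ := fun s t =>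
    b (O.D s) * lsub δ (b t) - b (O.D t) * lsub δ (b s) with hXX
  have four : ∀ {d e f g : ℤ} {s t r v : Vec E.a n}, Sec E d s → Sec E e t → Sec E f r →
      Sec E g v → mm s t * mm r v - mm s r * mm t v + mm s v * mm t r = 0 := by
    intro d e f g s t r v hs ht hr hv
    have h1 := congrArg (lsub L) (W.four s t r v hs.ker ht.ker hr.ker hv.ker)
    simp only [map_add, map_sub, map_mul, map_zero] at h1
    exact h1
  have anti : ∀ {d e : ℤ} {s t : Vec E.a n}, Sec E d s → Sec E e t → mm t s = - mm s t := by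
    intro d e s t hs ht
    simp only [hmm]
    rw [W.anti t s ht.ker hs.ker, map_neg]
  have hDD : ∀ f g : MvPolynomial (Fin (1 + 1)) ℂ, lsub δ (f - g) = lsub δ f - lsub δ g :=
    fun f g => map_sub _ _ _
  have cross0 : ∀ {d e f g : ℤ} {s t r v : Vec E.a n}, Sec E d s → Sec E e t → Sec E f r →
      Sec E g v → lsub δ (mm s t) ^ 2 * XX r v = lsub δ (mm s t) * lsub δ (mm r v) * XX s t := by
    intro d e f g s t r v hs ht hr hv
    have a1 := r2 hs ht hr
    have a2 := r2 hs ht hv
    have b1 := congrArg (lsub δ) (r1 hs ht hr)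
    have b2 := congrArg (lsub δ) (r1 hs ht hv)
    have f1 := congrArg (lsub δ) (four hs ht hr hv)
    have c1 := congrArg (lsub δ) (anti hs hr)
    have c2 := congrArg (lsub δ) (anti hs hv)
    have c3 := congrArg (lsub δ) (anti ht hr)
    have c4 := congrArg (lsub δ) (anti ht hv)
    simp only [map_sub, map_mul, map_add, map_neg, map_zero] at b1 b2 f1 c1 c2 c3 c4
    rw [c1, c3] at a1 b1
    rw [c2, c4] at a2 b2
    simp only [hXX]
    linear_combination (lsub δ (mm s t) * lsub δ (b v)) * a1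
      + (- lsub δ (mm t r) * b (O.D s) + lsub δ (mm s r) * b (O.D t)) * b2
      - (lsub δ (mm s t) * lsub δ (b r)) * a2
      - (- lsub δ (mm t v) * b (O.D s) + lsub δ (mm s v) * b (O.D t)) * b1
      - (b (O.D s) * lsub δ (b t) - b (O.D t) * lsub δ (b s)) * f1
  have cross : ∀ {d e f g : ℤ} {s t r v : Vec E.a n}, Sec E d s → Sec E e t → Sec E f r →
      Sec E g v → lsub δ (mm s t) * XX r v = lsub δ (mm r v) * XX s t := by
    intro d e f g s t r v hs ht hr hv
    by_cases h0 : lsub δ (mm s t) = 0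
    · by_cases h1 : lsub δ (mm r v) = 0
      · rw [h0, h1, zero_mul, zero_mul]
      · have h2 := cross0 hr hv hs ht
        rw [h0, mul_zero, zero_mul] at h2
        have h3 : XX s t = 0 := (mul_eq_zero.1 h2).resolve_left (pow_ne_zero _ h1)
        rw [h0, h3, mul_zero, zero_mul]
    · apply mul_left_cancel₀ h0
      have h2 := cross0 hs ht hr hv
      linear_combination h2
  have bD : ∀ {d e : ℤ} {s t : Vec E.a n}, Sec E d s → Sec E e t →
      HomZ (XX s t) (d + q + (e + q)) := by
    intro d e s t hs ht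
    have h1 := hbhom (O.sec _ _ hs)
    have h2 := homZ_lsub δ (hbhom ht)
    have h3 := hbhom (O.sec _ _ ht)
    have h4 := homZ_lsub δ (hbhom hs)
    refine homZ_sub (homZ_of ((wh_triv h1).mul (wh_triv h2))) ?_
    have h5 := homZ_of ((wh_triv h3).mul (wh_triv h4))
    have h6 : (((e + q, 0) + (d + q, 0) : M)).1 = d + q + (e + q) := by
      show e + q + (d + q) = _
      ring
    rwa [h6] at h5
  have mHom : ∀ {d e : ℤ} {s t : Vec E.a n}, Sec E d s → Sec E e t →
      HomZ (lsub δ (mm s t)) (d + e + (p + q)) := by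
    intro d e s t hs ht
    rw [← hsum]
    exact homZ_lsub δ (homZ_lsub L (wd_homZ W hs ht))
  have hX1 : ∀ {d e : ℤ} {s t : Vec E.a n}, Sec E d s → Sec E e t → lsub δ (mm s t) ≠ 0 →
      XX s t = 0 := by
    intro d e s t hs ht h0
    have hd : lsub δ (mm s t) ∣ XX s t := by
      refine dvd_of_primes h0 fun π hπ _ => ?_
      obtain ⟨v, hv, hv0⟩ := no_isolated_prime (le_refl 2) π hπ
      have hδv : δ v ≠ 0 := fun h => hv (hδi (by rw [h, map_zero]))
      obtain ⟨a', b', H, H', hH, hH', h2⟩ := exists_sec_ne W (L (δ v)) (hLx _ hδv)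
      refine ⟨lsub δ (mm H H'), XX H H', cross hs ht hH hH', ?_⟩
      rintro ⟨g, hg⟩
      apply h2
      rw [← eval_lsub, ← eval_lsub]
      have h3 : lsub δ (lsub L (W.wd H H')) = π * g := hg
      rw [h3, map_mul, hv0, zero_mul]
    obtain ⟨f, hf⟩ := hd
    by_contra hX
    have hf0 : f ≠ 0 := by
      rintro rfl
      rw [mul_zero] at hf
      exact hX hf
    have h1 := wh_triv (bD hs ht)
    rw [hf] at h1
    obtain ⟨e1, e2, hee, he, he'⟩ := hom_of_mul _ h1 (mul_ne_zero h0 hf0)
    have h2 := congrArg Prod.fst (he.inj_right h0 (wh_triv (mHom hs ht)))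
    have h3 := congrArg Prod.fst hee
    rcases homZ_of he' with h4 | ⟨k, hk, -⟩
    · exact hf0 h4
    · have h5 : e1.1 = d + e + (p + q) := h2
      have h6 : e1.1 + e2.1 = d + q + (e + q) := h3
      omega
  have hne1 : (fun _ => 1 : Fin (1 + 1) → ℂ) ≠ 0 := fun h => by simpa using congrFun h 0
  have hX : ∀ {d e : ℤ} {s t : Vec E.a n}, Sec E d s → Sec E e t → XX s t = 0 := by
    intro d e s t hs ht
    obtain ⟨a', b', H, H', hH, hH', h2⟩ := exists_sec_ne W _ (hLx _ hne1)
    have h3 : lsub δ (mm H H') ≠ 0 := by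
      intro h3
      have h4 : mm H H' = 0 := hδl (by rw [h3, map_zero])
      apply h2
      rw [← eval_lsub]
      have h5 : lsub L (W.wd H H') = 0 := h4
      rw [h5, map_zero]
    have h4 := cross hH hH' hs ht
    rw [hX1 hH hH' h3, mul_zero] at h4
    exact (mul_eq_zero.1 h4).resolve_left h3
  -- the components do not vanish simultaneously
  have bne : ∀ (z : Fin (1 + 1) → ℂ), z ≠ 0 → ∀ {d e : ℤ} {s t : Vec E.a n}, Sec E d s →
      Sec E e t → eval (L z) (W.wd s t) ≠ 0 → eval z (b s) ≠ 0 ∨ eval z (b t) ≠ 0 := by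
    intro z hz d e s t hs ht h
    by_contra hc1
    push Not at hc1
    obtain ⟨e1, e2⟩ := hc1
    have k1 := rs_sec L hL hs
    have k2 := rs_sec L hL ht
    apply (hg z hz).2.2.ne_zero 0
    funext i
    have h1 := congrArg (eval z) (W'.three g₁ (rs L s) (rs L t) s₁.ker k1.ker k2.ker i)
    simp only [map_add, map_sub, map_mul, map_zero] at h1
    have e1' : eval z (W'.wd g₁ (rs L s)) = 0 := e1
    have e2' : eval z (W'.wd g₁ (rs L t)) = 0 := e2
    rw [e1', e2', zero_mul, zero_mul, sub_zero, add_zero] at h1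
    have h3 : eval z (W'.wd (rs L s) (rs L t)) ≠ 0 := by
      rw [hres _ _ hs.ker ht.ker, map_mul, eval_C, eval_lsub]
      exact mul_ne_zero hω h
    exact (mul_eq_zero.1 h1).resolve_left h3
  -- the factor
  obtain ⟨d0, s0, hs0, hb0⟩ : ∃ (d : ℤ) (s : Vec E.a n), Sec E d s ∧ b s ≠ 0 := by
    obtain ⟨a', b', H, H', hH, hH', h2⟩ := exists_sec_ne W _ (hLx _ hne1)
    rcases bne _ hne1 hH hH' h2 with h | h
    · exact ⟨a', H, hH, fun h0 => h (by rw [h0, map_zero])⟩
    · exact ⟨b', H', hH', fun h0 => h (by rw [h0, map_zero])⟩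
  have hD0 : lsub δ (b s0) ≠ 0 := fun h => hb0 (hδl (by rw [h, map_zero]))
  have hrel : ∀ {d e : ℤ} {s t : Vec E.a n}, Sec E d s → Sec E e t →
      b (O.D s) * lsub δ (b t) = b (O.D t) * lsub δ (b s) := by
    intro d e s t hs ht
    have := hX hs ht
    simp only [hXX] at this
    exact sub_eq_zero.1 this
  obtain ⟨τ, hτ0⟩ : ∃ τ : ℂ, b (O.D s0) = C τ * lsub δ (b s0) := by
    have hd : lsub δ (b s0) ∣ b (O.D s0) := by
      refine dvd_of_primes hD0 fun π hπ _ => ?_
      obtain ⟨v, hv, hv0⟩ := no_isolated_prime (le_refl 2) π hπ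
      have hδv : δ v ≠ 0 := fun h => hv (hδi (by rw [h, map_zero]))
      obtain ⟨a', b', H, H', hH, hH', h2⟩ := exists_sec_ne W (L (δ v)) (hLx _ hδv)
      have key : ∀ {e : ℤ} {t : Vec E.a n}, Sec E e t → eval (δ v) (b t) ≠ 0 →
          ∃ a' b', lsub δ (b s0) * b' = a' * b (O.D s0) ∧ ¬ π ∣ a' := by
        intro e t ht h
        refine ⟨lsub δ (b t), b (O.D t), ?_, ?_⟩
        · have := hrel hs0 ht
          linear_combination -this
        · rintro ⟨g, hg⟩
          apply h
          rw [← eval_lsub, hg, map_mul, hv0, zero_mul]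
      rcases bne _ hδv hH hH' h2 with h | h
      · exact key hH h
      · exact key hH' h
    obtain ⟨f, hf⟩ := hd
    by_cases hf0 : f = 0
    · exact ⟨0, by rw [hf, hf0, C_0, mul_zero, zero_mul]⟩
    · have h1 := wh_triv (hbhom (O.sec _ _ hs0))
      rw [hf] at h1
      obtain ⟨e, e', hee, he, he'⟩ := hom_of_mul _ h1 (mul_ne_zero hD0 hf0)
      have h2 : e = (d0 + q, 0) := he.inj_right hD0 (wh_triv (homZ_lsub δ (hbhom hs0)))
      rw [h2] at hee
      have h3 : e' = 0 := by
        have := add_left_cancel (a := ((d0 + q, 0) : M)) (b := e') (c := 0)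
          (by rw [hee, add_zero])
        exact this
      obtain ⟨c, -, hc⟩ := const_of_degree_zero he' hf0 (by rw [h3]; rfl)
      exact ⟨c, by rw [hf, hc, mul_comm]⟩
  have hτ : ∀ {d : ℤ} {s : Vec E.a n}, Sec E d s → b (O.D s) = C τ * lsub δ (b s) := by
    intro d s hs
    apply mul_left_cancel₀ hD0
    have h1 := hrel hs0 hs
    rw [hτ0] at h1
    linear_combination -h1
  -- the values at the two points
  have fin : ∀ (z : Fin (1 + 1) → ℂ) (l : ℂ), z ≠ 0 → l ≠ 0 → δ z = l • z → ∀ (u : ℂ),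
      (∀ (d : ℤ) (α : ℂ) (s : S0 E d), O.GE d α s → evv (s : Vec E.a n) (L z) ≠ 0 →
      α = u * l ^ d) → u = τ * l ^ q := by
    intro z l hz hl hδz u hu
    obtain ⟨d, hd⟩ := O.exists_ge W
    obtain ⟨α, β, s, t, hs, ht, hne⟩ := hd (L z) (hLx z hz)
    let bB : S0 E d →ₗ[ℂ] MvPolynomial (Fin (1 + 1)) ℂ :=
      { toFun := fun s => b s.1
        map_add' := by
          intro s t
          have k1 := rs_sec L hL s.2
          have k2 := rs_sec L hL t.2
          have h1 : rs L (s + t).1 = fun i => rs L s.1 i + rs L t.1 i := by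
            funext i
            exact map_add (lsub L) _ _
          exact (congrArg (W'.wd g₁) h1).trans (wd_add_right W' k1.ker k2.ker s₁.ker)
        map_smul' := by
          intro c s
          have k1 := rs_sec L hL s.2
          have h1 : rs L (c • s).1 = fun i => C c * rs L s.1 i := by
            funext i
            have h3 : (c • s).1 i = C c * s.1 i := by
              rw [← smul_eq_C_mul]
              rfl
            show lsub L ((c • s).1 i) = C c * lsub L (s.1 i)
            rw [h3, map_mul]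
            congr 1
            exact (lsub L).commutes c
          refine (congrArg (W'.wd g₁) h1).trans ((wd_mul_right W' k1.ker s₁.ker _).trans ?_)
          rw [RingHom.id_apply, smul_eq_C_mul] }
    let hLm : MvPolynomial (Fin (1 + 1)) ℂ →ₗ[ℂ] MvPolynomial (Fin (1 + 1)) ℂ :=
      τ • (lsub δ).toLinearMap
    have inter : ∀ s : S0 E d, bB (O.lin d s) = hLm (bB s) := by
      intro s
      have h1 := hτ s.2
      show b (O.D s.1) = τ • lsub δ (b s.1)
      rw [h1, smul_eq_C_mul]
    have inter2 : ∀ (α : ℂ) (k : ℕ) (s : S0 E d),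
        bB (((O.lin d - α • 1) ^ k) s) = ((hLm - α • 1) ^ k) (bB s) := by
      intro α k
      induction k with
      | zero => intro s; rw [pow_zero, pow_zero, Module.End.one_apply, Module.End.one_apply]
      | succ k ih =>
        intro s
        rw [pow_succ, pow_succ, Module.End.mul_apply, Module.End.mul_apply, ih]
        congr 1
        simp only [LinearMap.sub_apply, LinearMap.smul_apply, Module.End.one_apply, map_sub,
          map_smul, inter]
    have evp : ∀ (α : ℂ) (N : ℤ) (k : ℕ) (f : MvPolynomial (Fin (1 + 1)) ℂ), HomZ f N →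
        eval z (((hLm - α • 1) ^ k) f) = (τ * l ^ N - α) ^ k * eval z f := by
      intro α N k
      induction k with
      | zero => intro f _; rw [pow_zero, pow_zero, one_mul, Module.End.one_apply]
      | succ k ih =>
        intro f hf
        have h1 : (hLm - α • 1) f = τ • lsub δ f - α • f := rfl
        have h2 : HomZ ((hLm - α • 1) f) N := by
          rw [h1]
          exact homZ_sub (homZ_smul (homZ_lsub δ hf) _) (homZ_smul hf _)
        rw [pow_succ, Module.End.mul_apply, ih _ h2, h1, map_sub, smul_eval, smul_eval, eval_lsub,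
          hδz, eval_smul_homZ hf]
        ring
    have get : ∀ (α : ℂ) (s : S0 E d), O.GE d α s → eval z (b s.1) ≠ 0 →
        α = τ * l ^ (d + q) := by
      rintro α s ⟨k, hk⟩ hb1
      have h1 := inter2 α k s
      rw [hk, map_zero] at h1
      have h2 := evp α (d + q) k (bB s) (hbhom s.2)
      rw [← h1, map_zero] at h2
      have h3 := (mul_eq_zero.1 h2.symm).resolve_right hb1
      by_cases hk0 : k = 0
      · rw [hk0, pow_zero] at h3
        exact absurd h3 one_ne_zero
      · have h4 := (pow_eq_zero_iff hk0).1 h3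
        linear_combination -h4
    have hind := (W.ind (L z) (hLx z hz) s.1 t.1 s.2.ker t.2.ker).1 hne
    have fin2 : ∀ (α : ℂ) (s : S0 E d), O.GE d α s → eval z (b s.1) ≠ 0 →
        evv (s : Vec E.a n) (L z) ≠ 0 → u = τ * l ^ q := by
      intro α s hs hb1 hv
      have h1 := get α s hs hb1
      have h2 := hu d α s hs hv
      have h3 : l ^ d ≠ 0 := zpow_ne_zero _ hl
      apply mul_right_cancel₀ h3
      rw [← h2, h1, mul_assoc, ← zpow_add₀ hl, add_comm q d]
    rcases bne z hz s.2 t.2 hne with h | h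
    · exact fin2 α s hs h (hind.ne_zero 0)
    · exact fin2 β t ht h (hind.ne_zero 1)
  have hLP : L ![1, 0] = P := by
    rw [hLdef, ln_apply]
    simp
  have hLQ : L ![0, 1] = Q := by
    rw [hLdef, ln_apply]
    simp
  refine ⟨hsum, τ, ?_, ?_⟩
  · have h1 := fin ![1, 0] l₁ (fun h => by simpa using congrFun h 0) hl₁ (by
      ext i
      fin_cases i <;> simp [hδ, dg])
    rw [hLP] at h1
    exact h1
  · have h1 := fin ![0, 1] l₂ (fun h => by simpa using congrFun h 1) hl₂ (by
      ext i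
      fin_cases i <;> simp [hδ, dg])
    rw [hLQ] at h1
    exact h1

end Pool.Agent.W467.FO
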